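import Mathlib
import Pool.Agent.Helper246.NotOneRel
import Pool.Agent.Helper246.RelCore

/-!
# A group with cyclic relation module which is not a one-relator group

The group is `⟨a, t | a⁶, [a², t a³ t⁻¹]⟩`.
-/

namespace Pool.Agent.Results.MP_8396f3_al.CyclicNotOneRelator

universe u v

open scoped commutatorElement

/-- Conjugation by an element of `F` on `R/[R,R]`, for a normal subgroup `R` of `F`. -/
noncomputable def conjAb {F : Type u} [Group F] (R : Subgroup F) [R.Normal] :
    F →* Monoid.End (Abelianization R) where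
  toFun g := Abelianization.map ((MulAut.conjNormal g : MulAut R) : R →* R)
  map_one' := by
    apply Abelianization.hom_ext
    ext r
    simp
    rfl
  map_mul' g h := by
    apply Abelianization.hom_ext
    ext r
    simp
    rfl

/-- The kernel `R` acts trivially on `R/[R,R]`. -/
lemma conjAb_trivial {F : Type u} [Group F] (R : Subgroup F) [R.Normal] :
    R ≤ (conjAb R).ker := by
  intro g hg
  rw [MonoidHom.mem_ker]
  refine Abelianization.hom_ext _ _ (MonoidHom.ext fun r => ?_)
  have h1 : (MulAut.conjNormal g : MulAut R) r = ⟨g, hg⟩ * r * ⟨g, hg⟩⁻¹ := by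
    ext
    simp
  change Abelianization.of ((MulAut.conjNormal g : MulAut R) r) = Abelianization.of r
  rw [h1, map_mul, map_mul, map_inv, mul_inv_cancel_comm]

/-- The action of `G` on `R/[R,R]`, where `R` is the kernel of the surjection `π : F → G`. -/
noncomputable def actAb {F : Type u} {G : Type v} [Group F] [Group G] (π : F →* G)
    (hπ : Function.Surjective π) : G →* Monoid.End (Abelianization π.ker) :=
  (QuotientGroup.lift π.ker (conjAb π.ker) (conjAb_trivial π.ker)).comp
    (QuotientGroup.quotientKerEquivOfSurjective π hπ).symm.toMonoidHom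

/-- The relation module `R/[R,R]` of the free presentation `π : F → G`, `R = ker π`, as an
integral representation of `G`. -/
noncomputable def relationModule {F : Type u} {G : Type v} [Group F] [Group G] (π : F →* G)
    (hπ : Function.Surjective π) :
    Representation ℤ G (Additive (Abelianization π.ker)) where
  toFun g := (MonoidHom.toAdditive (actAb π hπ g)).toIntLinearMap
  map_one' := by
    ext x
    simp
    rfl
  map_mul' g h := by
    ext x
    simp
    rfl

/-- `G` has cyclic relation module: for some free presentation `π : F(X) → G`, the `ℤG`-module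
`R/[R,R]`, `R = ker π`, is generated by one element. -/
def HasCyclicRelationModule (G : Type u) [Group G] : Prop :=
  ∃ (X : Type u) (π : FreeGroup X →* G) (hπ : Function.Surjective π)
    (m : (relationModule π hπ).asModule), Submodule.span (MonoidAlgebra ℤ G) {m} = ⊤

/-- `G` is a one-relator group: it is isomorphic to `⟨X | r⟩` for a set `X` and one word `r`. -/
def IsOneRelatorGroup (G : Type u) [Group G] : Prop :=
  ∃ (X : Type v) (r : FreeGroup X), Nonempty (G ≃* PresentedGroup ({r} : Set (FreeGroup X)))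

section Module

variable {F : Type u} {G : Type v} [Group F] [Group G] (π : F →* G)
  (hπ : Function.Surjective π)

/-- The defining formula of the relation module: `π f · r[R,R] = (f r f⁻¹)[R,R]`. -/
lemma relationModule_apply (f : F) (r : π.ker) :
    relationModule π hπ (π f) (Additive.ofMul (Abelianization.of r)) =
      Additive.ofMul (Abelianization.of (MulAut.conjNormal f r)) := by
  have h1 : (QuotientGroup.quotientKerEquivOfSurjective π hπ).symm (π f) =
      (QuotientGroup.mk f : F ⧸ π.ker) := by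
    rw [MulEquiv.symm_apply_eq]
    rfl
  change Additive.ofMul ((QuotientGroup.lift π.ker (conjAb π.ker) (conjAb_trivial π.ker))
    ((QuotientGroup.quotientKerEquivOfSurjective π hπ).symm (π f)) (Abelianization.of r)) = _
  rw [h1]
  rfl

/-- The class of `r ∈ R` in the relation module. -/
noncomputable def cls (r : π.ker) : (relationModule π hπ).asModule :=
  (relationModule π hπ).asModuleEquiv.symm (Additive.ofMul (Abelianization.of r))

lemma cls_mul (r s : π.ker) : cls π hπ (r * s) = cls π hπ r + cls π hπ s := by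
  unfold cls
  rw [map_mul, ofMul_mul, map_add]

lemma cls_one : cls π hπ 1 = 0 := by
  unfold cls
  rw [map_one, ofMul_one, map_zero]

lemma cls_inv (r : π.ker) : cls π hπ r⁻¹ = - cls π hπ r := by
  unfold cls
  rw [map_inv, ofMul_inv, map_neg]

lemma cls_conj (f : F) (r : π.ker) :
    cls π hπ (MulAut.conjNormal f r) = MonoidAlgebra.of ℤ G (π f) • cls π hπ r := by
  unfold cls
  rw [← relationModule_apply π hπ, Representation.asModuleEquiv_symm_map_rho]

lemma cls_surj (x : (relationModule π hπ).asModule) : ∃ r, cls π hπ r = x := by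
  obtain ⟨r, hr⟩ := QuotientGroup.mk_surjective
    (Additive.toMul ((relationModule π hπ).asModuleEquiv x) : Abelianization π.ker)
  refine ⟨r, ?_⟩
  unfold cls
  rw [LinearEquiv.symm_apply_eq]
  exact congrArg Additive.ofMul hr

/-- The elements of `R` whose class lies in a given submodule. -/
def subOf (T : Submodule (MonoidAlgebra ℤ G) (relationModule π hπ).asModule) : Subgroup F where
  carrier := {g | ∃ h : g ∈ π.ker, cls π hπ ⟨g, h⟩ ∈ T}
  one_mem' := ⟨π.ker.one_mem, by
    have : (⟨1, π.ker.one_mem⟩ : π.ker) = 1 := rfl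
    rw [this, cls_one]
    exact T.zero_mem⟩
  mul_mem' := by
    rintro a b ⟨ha, ha'⟩ ⟨hb, hb'⟩
    refine ⟨π.ker.mul_mem ha hb, ?_⟩
    have : (⟨a * b, π.ker.mul_mem ha hb⟩ : π.ker) = ⟨a, ha⟩ * ⟨b, hb⟩ := rfl
    rw [this, cls_mul]
    exact T.add_mem ha' hb'
  inv_mem' := by
    rintro a ⟨ha, ha'⟩
    refine ⟨π.ker.inv_mem ha, ?_⟩
    have : (⟨a⁻¹, π.ker.inv_mem ha⟩ : π.ker) = ⟨a, ha⟩⁻¹ := rfl
    rw [this, cls_inv]
    exact T.neg_mem ha'

lemma mem_subOf {T : Submodule (MonoidAlgebra ℤ G) (relationModule π hπ).asModule} {g : F} :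
    g ∈ subOf π hπ T ↔ ∃ h : g ∈ π.ker, cls π hπ ⟨g, h⟩ ∈ T := Iff.rfl

lemma subOf_normal (T : Submodule (MonoidAlgebra ℤ G) (relationModule π hπ).asModule) :
    (subOf π hπ T).Normal := by
  constructor
  intro g hg f
  rw [mem_subOf] at hg ⊢
  obtain ⟨h, hT⟩ := hg
  refine ⟨(MonoidHom.normal_ker π).conj_mem g h f, ?_⟩
  have h1 : (⟨f * g * f⁻¹, (MonoidHom.normal_ker π).conj_mem g h f⟩ : π.ker) =
      MulAut.conjNormal f ⟨g, h⟩ := by
    ext
    simp
  rw [h1, cls_conj]
  exact T.smul_mem _ hT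

lemma commutator_le_subOf (T : Submodule (MonoidAlgebra ℤ G) (relationModule π hπ).asModule) :
    ⁅π.ker, π.ker⁆ ≤ subOf π hπ T := by
  rw [Subgroup.commutator_le]
  intro g hg h hh
  rw [mem_subOf]
  refine ⟨?_, ?_⟩
  · rw [commutatorElement_def]
    exact π.ker.mul_mem (π.ker.mul_mem (π.ker.mul_mem hg hh) (π.ker.inv_mem hg))
      (π.ker.inv_mem hh)
  · have h1 : (⟨⁅g, h⁆, by
        rw [commutatorElement_def]
        exact π.ker.mul_mem (π.ker.mul_mem (π.ker.mul_mem hg hh) (π.ker.inv_mem hg))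
          (π.ker.inv_mem hh)⟩ : π.ker) = ⟨g, hg⟩ * ⟨h, hh⟩ * ⟨g, hg⟩⁻¹ * ⟨h, hh⟩⁻¹ := by
      ext
      simp [commutatorElement_def]
    rw [h1, cls_mul, cls_mul, cls_mul, cls_inv, cls_inv]
    have h2 : cls π hπ ⟨g, hg⟩ + cls π hπ ⟨h, hh⟩ + -cls π hπ ⟨g, hg⟩ + -cls π hπ ⟨h, hh⟩ =
        0 := by abel
    rw [h2]
    exact T.zero_mem

/-- If `R` is contained in every normal subgroup containing `r` and `[R,R]`, then the class of
`r` generates the relation module. -/
lemma span_cls (r : π.ker)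
    (hr : ∀ K : Subgroup F, K.Normal → (r : F) ∈ K → ⁅π.ker, π.ker⁆ ≤ K → π.ker ≤ K) :
    Submodule.span (MonoidAlgebra ℤ G) {cls π hπ r} = ⊤ := by
  rw [eq_top_iff]
  rintro x -
  obtain ⟨s, rfl⟩ := cls_surj π hπ x
  have h1 := hr (subOf π hπ (Submodule.span (MonoidAlgebra ℤ G) {cls π hπ r}))
    (subOf_normal π hπ _)
    ((mem_subOf π hπ).mpr ⟨r.2, Submodule.subset_span rfl⟩)
    (commutator_le_subOf π hπ _)
  obtain ⟨_, h2⟩ := (mem_subOf π hπ).mp (h1 s.2)
  exact h2

end Module

section Example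

/-- The first generator. -/
abbrev A : FreeGroup (Fin 2) := FreeGroup.of 0

/-- The second generator. -/
abbrev T : FreeGroup (Fin 2) := FreeGroup.of 1

/-- The word `t a³ t⁻¹`. -/
def Yw : FreeGroup (Fin 2) := T * A ^ 3 * T⁻¹

/-- The relators `a⁶` and `[a², t a³ t⁻¹]`. -/
def rels : Set (FreeGroup (Fin 2)) := {A ^ 6, A ^ 2 * Yw * (A ^ 2)⁻¹ * Yw⁻¹}

/-- The relator whose class generates the relation module. -/
def rel₀ : FreeGroup (Fin 2) :=
  A ^ 2 * Yw * (A ^ 2)⁻¹ * Yw⁻¹ *
    ((A ^ 2 * (Yw * Yw) * (A ^ 2)⁻¹) * A ^ 6 * (Yw * A ^ 6 * Yw⁻¹)⁻¹)⁻¹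

lemma rels_le {K R : Subgroup (FreeGroup (Fin 2))} (hK : K.Normal) (hR : R.Normal)
    (h6 : A ^ 6 ∈ R) (hc : A ^ 2 * Yw * (A ^ 2)⁻¹ * Yw⁻¹ ∈ R) (h0 : rel₀ ∈ K)
    (hRK : ⁅R, R⁆ ≤ K) : A ^ 6 ∈ K ∧ A ^ 2 * Yw * (A ^ 2)⁻¹ * Yw⁻¹ ∈ K := by
  set q : FreeGroup (Fin 2) →* FreeGroup (Fin 2) ⧸ K := QuotientGroup.mk' K with hq
  have hqs : Function.Surjective q := QuotientGroup.mk'_surjective K
  have hq1 : ∀ g, q g = 1 ↔ g ∈ K := fun g => QuotientGroup.eq_one_iff g
  have hN : (R.map q).Normal := hR.map q hqs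
  have hcomm : ∀ m ∈ R.map q, ∀ n ∈ R.map q, m * n = n * m := by
    rintro _ ⟨m, hm, rfl⟩ _ ⟨n, hn, rfl⟩
    have h1 : ⁅m, n⁆ ∈ K := hRK (Subgroup.commutator_mem_commutator hm hn)
    rw [← hq1, map_commutatorElement, commutatorElement_eq_one_iff_mul_comm] at h1
    exact h1
  have key := Pool.Agent.Helper246.RelCore.core (R.map q) hcomm (q A) (q T) (q (A ^ 2)) (q Yw)
    (map_pow q A 2) (by simp [Yw]) (by
      rw [← map_pow]
      exact Subgroup.mem_map_of_mem q h6) (by
      have := Subgroup.mem_map_of_mem q hc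
      simpa using this) (by
      have h1 := (hq1 _).mpr h0
      rw [rel₀, map_mul, map_inv, mul_inv_eq_one] at h1
      simpa using h1)
  constructor
  · rw [← hq1, map_pow]
    exact key.1
  · rw [← hq1]
    simpa using key.2

/-- The group `⟨a, t | a⁶, [a², t a³ t⁻¹]⟩`. -/
abbrev ExGroup : Type := PresentedGroup rels

lemma mk_A6 : PresentedGroup.mk rels (A ^ 6) = 1 :=
  (QuotientGroup.eq_one_iff _).mpr (Subgroup.subset_normalClosure (Or.inl rfl))

lemma mk_comm : PresentedGroup.mk rels (A ^ 2 * Yw * (A ^ 2)⁻¹ * Yw⁻¹) = 1 :=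
  (QuotientGroup.eq_one_iff _).mpr (Subgroup.subset_normalClosure (Or.inr rfl))

lemma ker_mk : (PresentedGroup.mk rels).ker = Subgroup.normalClosure rels := by
  ext g
  exact QuotientGroup.eq_one_iff g

lemma rel₀_mem : rel₀ ∈ (PresentedGroup.mk rels).ker := by
  set q := PresentedGroup.mk rels with hq
  rw [MonoidHom.mem_ker, rel₀, map_mul, map_inv, mk_comm]
  have h6 : q (A ^ 6) = 1 := mk_A6
  have hy : q (Yw * Yw) = 1 := by
    have e : Yw * Yw = T * A ^ 6 * T⁻¹ := by rw [Yw]; group
    rw [e, map_mul, map_mul, h6, map_inv]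
    group
  rw [map_mul, map_mul, map_mul, map_mul, hy, h6, map_inv, map_inv, map_mul, map_mul, h6,
    map_inv]
  group

/-- The relation module of `⟨a, t | a⁶, [a², t a³ t⁻¹]⟩` is cyclic. -/
theorem hasCyclic : HasCyclicRelationModule ExGroup := by
  refine ⟨Fin 2, PresentedGroup.mk rels, PresentedGroup.mk_surjective rels,
    cls _ _ ⟨rel₀, rel₀_mem⟩, ?_⟩
  apply span_cls
  intro K hK h0 hRK
  obtain ⟨h1, h2⟩ := rels_le hK (MonoidHom.normal_ker _) (by
      rw [MonoidHom.mem_ker]; exact mk_A6) (by rw [MonoidHom.mem_ker]; exact mk_comm) h0 hRK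
  rw [ker_mk]
  apply Subgroup.normalClosure_le_normal
  rintro g (rfl | rfl)
  · exact h1
  · exact h2

/-- A unit of order six modulo seven. -/
def u3 : (ZMod 7)ˣ := ⟨3, 5, by decide, by decide⟩

/-- The character `a ↦ 3`, `t ↦ 1` with values in the units modulo seven. -/
noncomputable def chi : ExGroup →* (ZMod 7)ˣ :=
  PresentedGroup.toGroup (f := ![u3, 1]) (by
    rintro r (rfl | rfl)
    · simp only [map_pow, FreeGroup.lift_apply_of]
      decide
    · simp [Yw, mul_comm])

/-- The generator `a`. -/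
noncomputable def ga : ExGroup := PresentedGroup.of 0

/-- The generator `t`. -/
noncomputable def gt : ExGroup := PresentedGroup.of 1

lemma chi_ga : chi ga = u3 := by
  simp [chi, ga]

lemma chi_gt : chi gt = 1 := by
  simp [chi, gt]

lemma ga_pow : ga ^ 6 = 1 := mk_A6

lemma comm_aux {H : Type u} [Group H] (a t : H)
    (h : a ^ 2 * (t * a ^ 3 * t⁻¹) * (a ^ 2)⁻¹ * (t * a ^ 3 * t⁻¹)⁻¹ = 1) :
    a * a * (t * (a * a * a) * t⁻¹) = t * (a * a * a) * t⁻¹ * (a * a) := by
  have e2 : a ^ 2 = a * a := pow_two a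
  have e3 : a ^ 3 = a * a * a := by rw [pow_succ, pow_two]
  rw [e2, e3] at h
  exact mul_inv_eq_iff_eq_mul.mp (mul_inv_eq_one.mp h)

lemma rel_comm :
    ga * ga * (gt * (ga * ga * ga) * gt⁻¹) = gt * (ga * ga * ga) * gt⁻¹ * (ga * ga) :=
  comm_aux ga gt mk_comm

lemma noncomm : ∃ x y : ExGroup, x * y ≠ y * x := by
  refine ⟨ga, gt, fun h => ?_⟩
  let φ : ExGroup →* Equiv.Perm (Fin 3) :=
    PresentedGroup.toGroup (f := ![Equiv.swap 0 1, Equiv.swap 1 2]) (by
      rintro r (rfl | rfl)
      · simp only [map_pow, FreeGroup.lift_apply_of]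
        decide
      · simp only [Yw, map_pow, map_mul, map_inv, FreeGroup.lift_apply_of]
        decide)
  have h1 := congrArg φ h
  rw [map_mul, map_mul] at h1
  have ha : φ ga = Equiv.swap 0 1 := by simp [φ, ga]
  have ht : φ gt = Equiv.swap 1 2 := by simp [φ, gt]
  rw [ha, ht] at h1
  revert h1
  decide

lemma arith : ∀ da dt : ZMod 7,
    5 * (5 * ((5 * (5 * (5 * (0 - dt + da) + da) + da) + dt) + da) + da) =
      5 * (5 * (5 * (5 * (5 * (0 + da) + da) - dt + da) + da) + da) + dt → dt = 0 := by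
  decide

lemma arith' : ∀ da : ZMod 7, 5 * (4 * da + da) = 4 * da := by
  decide

lemma u3_ne : u3 ≠ 1 := by
  decide

lemma fixed_point (B : ExGroup →* Equiv.Perm (ZMod 7))
    (hB : ∀ g, ∃ d : ZMod 7, ∀ z, B g z = (((chi g)⁻¹ : (ZMod 7)ˣ) : ZMod 7) * (z + d)) :
    ∃ p, ∀ g, B g p = p := by
  obtain ⟨da, hda⟩ := hB ga
  obtain ⟨dt, hdt⟩ := hB gt
  have ha : ∀ z, B ga z = 5 * (z + da) := by
    intro z
    rw [hda, chi_ga]
    rfl
  have ht : ∀ z, B gt z = z + dt := by
    intro z
    rw [hdt, chi_gt]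
    simp
  have hti : ∀ z, (B gt)⁻¹ z = z - dt := by
    intro z
    rw [Equiv.Perm.inv_eq_iff_eq, ht]
    ring
  have h1 := congrArg (fun g => B g 0) rel_comm
  simp only [map_mul, map_inv, Equiv.Perm.mul_apply, ha, ht, hti] at h1
  have hdt0 := arith da dt h1
  subst hdt0
  refine ⟨4 * da, fun g => ?_⟩
  have hg : g ∈ Subgroup.closure (Set.range (PresentedGroup.of (rels := rels))) := by
    rw [PresentedGroup.closure_range_of]
    exact Subgroup.mem_top g
  induction hg using Subgroup.closure_induction with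
  | mem x hx =>
    obtain ⟨i, rfl⟩ := hx
    fin_cases i
    · have := ha (4 * da)
      rw [arith'] at this
      exact this
    · have := ht (4 * da)
      rw [add_zero] at this
      exact this
  | one => simp
  | mul x y _ _ hx hy => rw [B.map_mul, Equiv.Perm.mul_apply, hy, hx]
  | inv x _ hx => rw [B.map_inv, Equiv.Perm.inv_eq_iff_eq, hx]

/-- The group `⟨a, t | a⁶, [a², t a³ t⁻¹]⟩` is not a one-relator group. -/
theorem notOneRelator : ¬ IsOneRelatorGroup.{0, v} ExGroup := by
  rintro ⟨X, r, ⟨e⟩⟩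
  have : Fact (Nat.Prime 7) := ⟨by norm_num⟩
  exact Pool.Agent.Helper246.NotOneRel.criterion (k := ZMod 7) chi ga 6 (by norm_num) ga_pow
    (by rw [chi_ga]; exact u3_ne) (fun B hB => fixed_point B hB) noncomm r e

end Example

/-- There is a group with cyclic relation module which is not a one-relator group. -/
theorem result : ∃ (G : Type) (_ : Group G),
    HasCyclicRelationModule G ∧ ¬ IsOneRelatorGroup.{0, v} G :=
  ⟨ExGroup, inferInstance, hasCyclic, notOneRelator⟩

end Pool.Agent.Results.MP_8396f3_al.CyclicNotOneRelator
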